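import Pool.Agent.helper93.TV.Spec1

/-!
Row tv:Coc (MP_29f1cd_al): the cocycle equation up to quadratic terms.
-/

set_option autoImplicit false
set_option linter.unusedSectionVars false

namespace Pool.Agent.helper93.TV

open BigOperators Finset Matrix

/-! ### Algebra in a ring -/

theorem Coc_ring {R : Type} [Ring R] (Q P4 P1 E0 E1 E2 E3 E4 : R) (h1 : Q * Q = Q)
    (h4 : Q * P4 = Q) (h5 : Q * P1 = Q)
    (h : (P4 + E4) * (Q + E2) * (Q + E0) * Q = (P1 + E1) * (Q + E3) * Q) :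
    Q * (E0 - E1 + E2 - E3 + E4) * Q =
      Q * (E1 * E3 - E2 * E0 - E4 * Q * E0 - E4 * E2 - E4 * E2 * E0) * Q := by
  have h2 : Q * ((P4 + E4) * (Q + E2) * (Q + E0) * Q) = Q * ((P1 + E1) * (Q + E3) * Q) := by rw [h]
  have e1 : Q * ((P4 + E4) * (Q + E2) * (Q + E0) * Q) =
      Q + Q * E0 * Q + Q * E2 * Q + Q * E2 * E0 * Q + Q * E4 * Q + Q * E4 * Q * E0 * Q +
        Q * E4 * E2 * Q + Q * E4 * E2 * E0 * Q := by
    have a1 : Q * ((P4 + E4) * (Q + E2) * (Q + E0) * Q) =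
        (Q * P4 + Q * E4) * ((Q + E2) * (Q * Q + E0 * Q)) := by noncomm_ring
    rw [a1, h4, h1]
    have a2 : (Q + Q * E4) * ((Q + E2) * (Q + E0 * Q)) =
      (Q * Q) * Q + (Q * Q) * E0 * Q + Q * E2 * Q + Q * E2 * E0 * Q + Q * E4 * (Q * Q) +
        Q * E4 * Q * E0 * Q + Q * E4 * E2 * Q + Q * E4 * E2 * E0 * Q := by noncomm_ring
    rw [a2, h1, h1]
  have e2 : Q * ((P1 + E1) * (Q + E3) * Q) = Q + Q * E3 * Q + Q * E1 * Q + Q * E1 * E3 * Q := by
    have a1 : Q * ((P1 + E1) * (Q + E3) * Q) = (Q * P1 + Q * E1) * (Q * Q + E3 * Q) := by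
      noncomm_ring
    rw [a1, h5, h1]
    have a2 : (Q + Q * E1) * (Q + E3 * Q) = Q * Q + Q * E3 * Q + Q * E1 * Q + Q * E1 * E3 * Q := by
      noncomm_ring
    rw [a2, h1]
  rw [e1, e2] at h2
  have b1 : Q * (E0 - E1 + E2 - E3 + E4) * Q =
      (Q + Q * E0 * Q + Q * E2 * Q + Q * E2 * E0 * Q + Q * E4 * Q + Q * E4 * Q * E0 * Q +
        Q * E4 * E2 * Q + Q * E4 * E2 * E0 * Q) - Q - Q * E1 * Q - Q * E3 * Q -
        Q * E2 * E0 * Q - Q * E4 * Q * E0 * Q - Q * E4 * E2 * Q - Q * E4 * E2 * E0 * Q := by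
    noncomm_ring
  rw [b1, h2]
  noncomm_ring

section

variable {V : Type} [Fintype V] [DecidableEq V]

/-! ### The embeddings -/

theorem Coc_L12_mul (Y Z : Matrix (V × V) (V × V) ℂ) : L12 (Y * Z) = L12 Y * L12 Z := by
  ext x y
  obtain ⟨a, b, c⟩ := x
  obtain ⟨a', b', c'⟩ := y
  simp only [L12, Matrix.mul_apply, Fintype.sum_prod_type]
  by_cases h : c = c'
  · subst h; simp
  · simp [h]

theorem Coc_L23_mul (Y Z : Matrix (V × V) (V × V) ℂ) : L23 (Y * Z) = L23 Y * L23 Z := by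
  ext x y
  obtain ⟨a, b, c⟩ := x
  obtain ⟨a', b', c'⟩ := y
  simp only [L23, Matrix.mul_apply, Fintype.sum_prod_type]
  by_cases h : a = a'
  · subst h
    rw [if_pos rfl]
    symm
    rw [Finset.sum_eq_single a]
    · simp
    · intro d _ hd
      simp [Ne.symm hd]
    · intro hh; exact absurd (Finset.mem_univ _) hh
  · rw [if_neg h]
    symm
    apply Finset.sum_eq_zero
    intro d _
    apply Finset.sum_eq_zero
    intro e _
    apply Finset.sum_eq_zero
    intro f _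
    by_cases h1 : a = d
    · subst h1; simp [h]
    · simp [h1]

theorem Coc_L12_H (Y : Matrix (V × V) (V × V) ℂ) : (L12 Y)ᴴ = L12 Yᴴ := by
  ext x y
  simp only [L12, Matrix.conjTranspose_apply]
  by_cases h : y.2.2 = x.2.2
  · rw [if_pos h, if_pos h.symm]
  · rw [if_neg h, if_neg (fun hh => h hh.symm), star_zero]

theorem Coc_L23_H (Y : Matrix (V × V) (V × V) ℂ) : (L23 Y)ᴴ = L23 Yᴴ := by
  ext x y
  simp only [L23, Matrix.conjTranspose_apply]
  by_cases h : y.1 = x.1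
  · rw [if_pos h, if_pos h.symm]
  · rw [if_neg h, if_neg (fun hh => h hh.symm), star_zero]

theorem Coc_L12_add (Y Z : Matrix (V × V) (V × V) ℂ) : L12 (Y + Z) = L12 Y + L12 Z := by
  ext x y
  simp only [L12, Matrix.add_apply]
  split_ifs <;> simp

theorem Coc_L23_add (Y Z : Matrix (V × V) (V × V) ℂ) : L23 (Y + Z) = L23 Y + L23 Z := by
  ext x y
  simp only [L23, Matrix.add_apply]
  split_ifs <;> simp

theorem Coc_L13_add (Y Z : Matrix (V × V) (V × V) ℂ) : L13 (Y + Z) = L13 Y + L13 Z := by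
  ext x y
  simp only [L13, Matrix.add_apply]
  split_ifs <;> simp

theorem Coc_L12_diag (d : V × V → ℂ) :
    L12 (Matrix.diagonal d) = Matrix.diagonal (fun x : V × V × V => d (x.1, x.2.1)) := by
  ext x y
  obtain ⟨a, b, c⟩ := x
  obtain ⟨a', b', c'⟩ := y
  simp only [L12, Matrix.diagonal_apply, Prod.mk.injEq]
  by_cases h1 : a = a' <;> by_cases h2 : b = b' <;> by_cases h3 : c = c' <;> simp [h1, h2, h3]

theorem Coc_L23_diag (d : V × V → ℂ) :
    L23 (Matrix.diagonal d) = Matrix.diagonal (fun x : V × V × V => d x.2) := by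
  ext x y
  obtain ⟨a, b, c⟩ := x
  obtain ⟨a', b', c'⟩ := y
  simp only [L23, Matrix.diagonal_apply, Prod.mk.injEq]
  by_cases h1 : a = a' <;> by_cases h2 : b = b' <;> by_cases h3 : c = c' <;> simp [h1, h2, h3]

theorem Coc_L13_diag (d : V × V → ℂ) :
    L13 (Matrix.diagonal d) = Matrix.diagonal (fun x : V × V × V => d (x.1, x.2.2)) := by
  ext x y
  obtain ⟨a, b, c⟩ := x
  obtain ⟨a', b', c'⟩ := y
  simp only [L13, Matrix.diagonal_apply, Prod.mk.injEq]
  by_cases h1 : a = a' <;> by_cases h2 : b = b' <;> by_cases h3 : c = c' <;> simp [h1, h2, h3]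

/-! ### Diagonal matrices -/

theorem Coc_comm {T : Type} [Fintype T] [DecidableEq T] (M : Matrix T T ℂ) (d d' : T → ℂ)
    (h : ∀ x y, M x y ≠ 0 → d y = d' x) : M * Matrix.diagonal d = Matrix.diagonal d' * M := by
  ext x y
  rw [Matrix.mul_diagonal, Matrix.diagonal_mul]
  by_cases h0 : M x y = 0
  · rw [h0]; simp
  · rw [h x y h0]; ring

theorem Coc_right {T : Type} [Fintype T] [DecidableEq T] (M : Matrix T T ℂ) (d : T → ℂ)
    (h : ∀ x y, M x y ≠ 0 → d y = 1) : M * Matrix.diagonal d = M := by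
  ext x y
  rw [Matrix.mul_diagonal]
  by_cases h0 : M x y = 0
  · rw [h0]; simp
  · rw [h x y h0]; ring

/-! ### The pentagon as a matrix equation -/

/-- The second factor of the left side of the pentagon. -/
def Coc_K (F : V → V → V → V → ℂ) : Matrix (V × V × V) (V × V × V) ℂ :=
  fun x y => if x.2.1 = y.1 then F x.1 x.2.2 y.2.1 y.2.2 else 0

theorem Coc_pent (F : V → V → V → V → ℂ) (h : Pent F) :
    L12 (Fm F) * L23 (Fm F) * L12 (Fm F) = L23 (Fm F) * Coc_K F := by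
  have e1 : ∀ x z, (L12 (Fm F) * L23 (Fm F)) x z =
      ∑ ρ, F x.1 x.2.1 z.1 ρ * F ρ x.2.2 z.2.1 z.2.2 := by
    intro x z
    obtain ⟨a, b, c⟩ := x
    obtain ⟨a', b', c'⟩ := z
    simp only [Matrix.mul_apply, L12, L23, Fm, Fintype.sum_prod_type]
    rw [Finset.sum_eq_single a']
    · simp
    · intro d _ hd
      simp [hd]
    · intro hh; exact absurd (Finset.mem_univ _) hh
  ext x y
  obtain ⟨α, γ, ε⟩ := x
  obtain ⟨β, δ, ζ⟩ := y
  rw [Matrix.mul_apply]
  have e2 : ∑ z, (L12 (Fm F) * L23 (Fm F)) (α, γ, ε) z * L12 (Fm F) z (β, δ, ζ) =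
      ∑ μ, ∑ ρ, ∑ σ, F α γ μ ρ * F ρ ε σ ζ * F μ σ β δ := by
    simp only [e1, L12, Fm, Fintype.sum_prod_type]
    apply Finset.sum_congr rfl
    intro μ _
    rw [Finset.sum_comm (f := fun ρ σ => F α γ μ ρ * F ρ ε σ ζ * F μ σ β δ)]
    apply Finset.sum_congr rfl
    intro σ _
    rw [Finset.sum_eq_single ζ]
    · rw [if_pos rfl, Finset.sum_mul]
    · intro z _ hz
      rw [if_neg hz, mul_zero]
    · intro hh; exact absurd (Finset.mem_univ _) hh
  have e3 : (L23 (Fm F) * Coc_K F) (α, γ, ε) (β, δ, ζ) = ∑ ν, F γ ε β ν * F α ν δ ζ := by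
    simp only [Matrix.mul_apply, L23, Coc_K, Fm, Fintype.sum_prod_type]
    rw [Finset.sum_eq_single α]
    · rw [Finset.sum_eq_single β]
      · simp
      · intro d _ hd
        simp [hd]
      · intro hh; exact absurd (Finset.mem_univ _) hh
    · intro d _ hd
      simp [Ne.symm hd]
    · intro hh; exact absurd (Finset.mem_univ _) hh
  rw [e2, e3]
  exact (h α γ ε β δ ζ).symm

theorem Coc_K_mul (F F' : V → V → V → V → ℂ) (X : Matrix (V × V) (V × V) ℂ)
    (h : X * Fm F = Fm F') : L13 X * Coc_K F = Coc_K F' := by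
  ext x y
  obtain ⟨a, b, c⟩ := x
  obtain ⟨a', b', c'⟩ := y
  simp only [Matrix.mul_apply, L13, Coc_K, Fintype.sum_prod_type]
  have h1 : F' a c b' c' = ∑ p, ∑ r, X (a, c) (p, r) * F p r b' c' := by
    have h2 : Fm F' (a, c) (b', c') = (X * Fm F) (a, c) (b', c') := by rw [h]
    rw [Matrix.mul_apply, Fintype.sum_prod_type] at h2
    exact h2
  by_cases hb : b = a'
  · subst hb
    rw [if_pos rfl, h1]
    apply Finset.sum_congr rfl
    intro p _
    rw [Finset.sum_eq_single b]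
    · simp
    · intro d _ hd
      simp [Ne.symm hd]
    · intro hh; exact absurd (Finset.mem_univ _) hh
  · rw [if_neg hb]
    apply Finset.sum_eq_zero
    intro p _
    apply Finset.sum_eq_zero
    intro d _
    apply Finset.sum_eq_zero
    intro r _
    by_cases h1 : b = d
    · subst h1; simp [hb]
    · simp [h1]

/-! ### A norm -/

/-- Sum of the absolute values of the entries. -/
noncomputable def Coc_N {T : Type} [Fintype T] (M : Matrix T T ℂ) : ℝ := ∑ x, ∑ y, ‖M x y‖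

theorem Coc_N_nonneg {T : Type} [Fintype T] (M : Matrix T T ℂ) : 0 ≤ Coc_N M :=
  Finset.sum_nonneg fun _ _ => Finset.sum_nonneg fun _ _ => norm_nonneg _

theorem Coc_N_entry {T : Type} [Fintype T] (M : Matrix T T ℂ) (x y : T) : ‖M x y‖ ≤ Coc_N M := by
  calc ‖M x y‖ ≤ ∑ y, ‖M x y‖ :=
        Finset.single_le_sum (f := fun y => ‖M x y‖) (fun _ _ => norm_nonneg _) (Finset.mem_univ y)
    _ ≤ Coc_N M :=
        Finset.single_le_sum (f := fun x => ∑ y, ‖M x y‖)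
          (fun _ _ => Finset.sum_nonneg fun _ _ => norm_nonneg _) (Finset.mem_univ x)

theorem Coc_N_mul {T : Type} [Fintype T] (M N : Matrix T T ℂ) :
    Coc_N (M * N) ≤ Coc_N M * Coc_N N := by
  unfold Coc_N
  calc ∑ x, ∑ y, ‖(M * N) x y‖ ≤ ∑ x, ∑ y, ∑ z, ‖M x z‖ * ‖N z y‖ := by
        apply Finset.sum_le_sum; intro x _
        apply Finset.sum_le_sum; intro y _
        rw [Matrix.mul_apply]
        refine (norm_sum_le _ _).trans ?_
        apply Finset.sum_le_sum; intro z _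
        rw [norm_mul]
    _ = ∑ x, ∑ z, ‖M x z‖ * ∑ y, ‖N z y‖ := by
        apply Finset.sum_congr rfl; intro x _
        rw [Finset.sum_comm]
        apply Finset.sum_congr rfl; intro z _
        rw [Finset.mul_sum]
    _ ≤ ∑ x, ∑ z, ‖M x z‖ * ∑ w, ∑ y, ‖N w y‖ := by
        apply Finset.sum_le_sum; intro x _
        apply Finset.sum_le_sum; intro z _
        apply mul_le_mul_of_nonneg_left _ (norm_nonneg _)
        exact Finset.single_le_sum (f := fun w => ∑ y, ‖N w y‖)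
          (fun _ _ => Finset.sum_nonneg fun _ _ => norm_nonneg _) (Finset.mem_univ z)
    _ = (∑ x, ∑ z, ‖M x z‖) * ∑ w, ∑ y, ‖N w y‖ := by
        rw [Finset.sum_mul]
        apply Finset.sum_congr rfl; intro x _
        rw [Finset.sum_mul]

theorem Coc_N_H {T : Type} [Fintype T] (M : Matrix T T ℂ) : Coc_N Mᴴ = Coc_N M := by
  unfold Coc_N
  rw [Finset.sum_comm]
  simp [Matrix.conjTranspose_apply]

theorem Coc_N_L12 (Y : Matrix (V × V) (V × V) ℂ) :
    Coc_N (L12 Y) = Fintype.card V * Coc_N Y := by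
  unfold Coc_N
  simp only [L12, Fintype.sum_prod_type]
  have e : ∀ a b c : V, ∑ a', ∑ b', ∑ c', ‖(if c = c' then Y (a, b) (a', b') else 0 : ℂ)‖ =
      ∑ a', ∑ b', ‖Y (a, b) (a', b')‖ := by
    intro a b c
    apply Finset.sum_congr rfl; intro a' _
    apply Finset.sum_congr rfl; intro b' _
    rw [Finset.sum_eq_single c]
    · simp
    · intro d _ hd; simp [Ne.symm hd]
    · intro hh; exact absurd (Finset.mem_univ _) hh
  simp only [e, Finset.sum_const, Finset.card_univ, nsmul_eq_mul, ← Finset.mul_sum]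

theorem Coc_N_L23 (Y : Matrix (V × V) (V × V) ℂ) :
    Coc_N (L23 Y) = Fintype.card V * Coc_N Y := by
  unfold Coc_N
  simp only [L23, Fintype.sum_prod_type]
  have e : ∀ a b c : V, ∑ a', ∑ b', ∑ c', ‖(if a = a' then Y (b, c) (b', c') else 0 : ℂ)‖ =
      ∑ b', ∑ c', ‖Y (b, c) (b', c')‖ := by
    intro a b c
    rw [Finset.sum_eq_single a]
    · simp
    · intro d _ hd; simp [Ne.symm hd]
    · intro hh; exact absurd (Finset.mem_univ _) hh
  simp only [e, Finset.sum_const, Finset.card_univ, nsmul_eq_mul]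

theorem Coc_N_L13 (Y : Matrix (V × V) (V × V) ℂ) :
    Coc_N (L13 Y) = Fintype.card V * Coc_N Y := by
  unfold Coc_N
  simp only [L13, Fintype.sum_prod_type]
  have e : ∀ a b c : V, ∑ a', ∑ b', ∑ c', ‖(if b = b' then Y (a, c) (a', c') else 0 : ℂ)‖ =
      ∑ a', ∑ c', ‖Y (a, c) (a', c')‖ := by
    intro a b c
    apply Finset.sum_congr rfl; intro a' _
    rw [Finset.sum_eq_single b]
    · simp
    · intro d _ hd; simp [Ne.symm hd]
    · intro hh; exact absurd (Finset.mem_univ _) hh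
  simp only [e, Finset.sum_const, Finset.card_univ, nsmul_eq_mul, ← Finset.mul_sum]

theorem Coc_N_sq {T : Type} [Fintype T] (M : Matrix T T ℂ) :
    Coc_N M ^ 2 ≤ (Fintype.card T : ℝ) ^ 2 * ∑ x, ∑ y, ‖M x y‖ ^ 2 := by
  unfold Coc_N
  calc (∑ x, ∑ y, ‖M x y‖) ^ 2 ≤ (Fintype.card T : ℝ) * ∑ x, (∑ y, ‖M x y‖) ^ 2 := by
        have := sq_sum_le_card_mul_sum_sq (s := (Finset.univ : Finset T))
          (f := fun x => ∑ y, ‖M x y‖)
        rwa [Finset.card_univ] at this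
    _ ≤ (Fintype.card T : ℝ) * ∑ x, ((Fintype.card T : ℝ) * ∑ y, ‖M x y‖ ^ 2) := by
        apply mul_le_mul_of_nonneg_left _ (Nat.cast_nonneg _)
        apply Finset.sum_le_sum
        intro x _
        have := sq_sum_le_card_mul_sum_sq (s := (Finset.univ : Finset T))
          (f := fun y => ‖M x y‖)
        rwa [Finset.card_univ] at this
    _ = (Fintype.card T : ℝ) ^ 2 * ∑ x, ∑ y, ‖M x y‖ ^ 2 := by
        rw [← Finset.mul_sum]; ring

theorem Coc_N_le {T : Type} [Fintype T] (M : Matrix T T ℂ) (b : ℝ) (h : ∀ x y, ‖M x y‖ ≤ b) :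
    Coc_N M ≤ (Fintype.card T : ℝ) ^ 2 * b := by
  unfold Coc_N
  calc ∑ x, ∑ y, ‖M x y‖ ≤ ∑ _x : T, ∑ _y : T, b :=
        Finset.sum_le_sum fun x _ => Finset.sum_le_sum fun y _ => h x y
    _ = (Fintype.card T : ℝ) ^ 2 * b := by
        rw [Finset.sum_const, Finset.sum_const, Finset.card_univ, nsmul_eq_mul, nsmul_eq_mul]
        ring

end

/-! ### The cocycle equation -/

theorem Coc_alg {R : Type} [Ring R] (A B AH BH X12 X23 X13 K K' A' B' p12 p23 r12 r23 : R)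
    (hA' : A' = X12 * A) (hB' : B' = X23 * B) (hK' : K' = X13 * K)
    (pen : A * B * A = B * K) (pen' : A' * B' * A' = B' * K')
    (c1 : X23 * r12 = r12 * X23) (c2 : B * p12 = r12 * B) (c3 : X12 * r23 = r23 * X12)
    (c4 : X13 * r23 = r23 * X13) (c5 : A * p23 = p23 * A)
    (k1 : X12 * p12 = X12) (k2 : A * r12 = A) (k3 : B * r23 = B)
    (AAH : A * AH = p12) (BBH : B * BH = p23) (AHA : AH * A = r12) (BHB : BH * B = r23) :
    X12 * (A * X23 * AH) * (A * B * X12 * BH * AH) * (p23 * p12) =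
      X23 * (B * X13 * BH) * (p23 * p12) := by
  have i : (A * X23 * AH) * A = A * X23 := by
    calc (A * X23 * AH) * A = A * (X23 * (AH * A)) := by simp only [mul_assoc]
      _ = A * (r12 * X23) := by rw [AHA, c1]
      _ = (A * r12) * X23 := by simp only [mul_assoc]
      _ = A * X23 := by rw [k2]
  have ii : (A * B * X12 * BH * AH) * (A * B) = A * B * X12 := by
    calc (A * B * X12 * BH * AH) * (A * B) = A * B * X12 * BH * ((AH * A) * B) := by
          simp only [mul_assoc]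
      _ = A * B * X12 * BH * (B * p12) := by rw [AHA, c2]
      _ = A * B * (X12 * (BH * B)) * p12 := by simp only [mul_assoc]
      _ = A * B * (r23 * X12) * p12 := by rw [BHB, c3]
      _ = A * (B * r23) * (X12 * p12) := by simp only [mul_assoc]
      _ = A * B * X12 := by rw [k3, k1]
  have iii : (B * X13 * BH) * B = B * X13 := by
    calc (B * X13 * BH) * B = B * (X13 * (BH * B)) := by simp only [mul_assoc]
      _ = B * (r23 * X13) := by rw [BHB, c4]
      _ = (B * r23) * X13 := by simp only [mul_assoc]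
      _ = B * X13 := by rw [k3]
  have q : (A * B * A) * (AH * BH * AH) = p23 * p12 := by
    calc (A * B * A) * (AH * BH * AH) = A * (B * (A * AH)) * BH * AH := by simp only [mul_assoc]
      _ = A * (r12 * B) * BH * AH := by rw [AAH, c2]
      _ = (A * r12) * (B * BH) * AH := by simp only [mul_assoc]
      _ = p23 * A * AH := by rw [k2, BBH, c5]
      _ = p23 * (A * AH) := by simp only [mul_assoc]
      _ = p23 * p12 := by rw [AAH]
  have main : X12 * (A * X23 * AH) * (A * B * X12 * BH * AH) * (A * B * A) =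
      X23 * (B * X13 * BH) * (A * B * A) := by
    calc X12 * (A * X23 * AH) * (A * B * X12 * BH * AH) * (A * B * A)
        = X12 * (A * X23 * AH) * ((A * B * X12 * BH * AH) * (A * B)) * A := by
          simp only [mul_assoc]
      _ = X12 * (A * X23 * AH) * (A * B * X12) * A := by rw [ii]
      _ = X12 * ((A * X23 * AH) * A) * B * X12 * A := by simp only [mul_assoc]
      _ = X12 * (A * X23) * B * X12 * A := by rw [i]
      _ = (X12 * A) * (X23 * B) * (X12 * A) := by simp only [mul_assoc]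
      _ = (X23 * B) * (X13 * K) := by rw [← hA', ← hB', ← hK', pen']
      _ = X23 * (B * X13) * K := by simp only [mul_assoc]
      _ = X23 * ((B * X13 * BH) * B) * K := by rw [iii]
      _ = X23 * (B * X13 * BH) * (B * K) := by simp only [mul_assoc]
      _ = X23 * (B * X13 * BH) * (A * B * A) := by rw [pen]
  rw [← q, ← mul_assoc, main, mul_assoc]

theorem Coc_proj {R : Type} [Ring R] (A B AH BH p12 p23 p13 r12 : R)
    (c2 : B * p12 = r12 * B) (c5 : A * p23 = p23 * A) (c6 : B * p13 = p12 * B)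
    (k2 : A * r12 = A) (AAH : A * AH = p12) (BBH : B * BH = p23) :
    A * p23 * AH = p23 * p12 ∧ A * B * p12 * BH * AH = p23 * p12 ∧ B * p13 * BH = p12 * p23 := by
  refine ⟨?_, ?_, ?_⟩
  · rw [c5, mul_assoc, AAH]
  · calc A * B * p12 * BH * AH = A * (B * p12) * BH * AH := by simp only [mul_assoc]
      _ = A * (r12 * B) * BH * AH := by rw [c2]
      _ = (A * r12) * (B * BH) * AH := by simp only [mul_assoc]
      _ = p23 * A * AH := by rw [k2, BBH, c5]
      _ = p23 * (A * AH) := by simp only [mul_assoc]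
      _ = p23 * p12 := by rw [AAH]
  · rw [c6, mul_assoc, BBH]

section

variable {I V : Type} [Fintype I] [DecidableEq I] [Fintype V] [DecidableEq V]

theorem Coc_FHF (D : FD I V) (F : V → V → V → V → ℂ) (h : D.UF F) :
    (Fm F)ᴴ * Fm F =
      Matrix.diagonal (fun x : V × V => if D.t x.1 = D.s2 x.2 then (1 : ℂ) else 0) := by
  ext x y
  obtain ⟨e', l'⟩ := x
  obtain ⟨e₁, l₁⟩ := y
  rw [Matrix.mul_apply, Fintype.sum_prod_type, Matrix.diagonal_apply]
  simp only [Matrix.conjTranspose_apply, Fm, Prod.mk.injEq]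
  by_cases ht : D.t e' = D.s2 l'
  · rw [if_pos ht]
    exact h.conn.col e' l' e₁ l₁ ht (Finset.mem_univ _) (Finset.mem_univ _)
  · rw [if_neg ht, ite_self]
    apply Finset.sum_eq_zero; intro l _
    apply Finset.sum_eq_zero; intro e _
    have h0 : F l e e' l' = 0 := by
      by_contra hne
      exact ht (h.conn.supp _ _ _ _ hne).1.2.1
    rw [h0, star_zero, zero_mul]

theorem Coc_PL (D : FD I V) :
    D.PL = Matrix.diagonal (fun x : V × V => if D.t x.1 = D.s1 x.2 then (1 : ℂ) else 0) := by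
  ext x y
  rw [Matrix.diagonal_apply]
  simp only [FD.PL]
  by_cases h1 : x = y
  · subst h1; simp
  · rw [if_neg h1, if_neg (fun hh => h1 hh.1)]

/-- The linear maps `f_i` are bounded. -/
theorem Coc_bound (F : V → V → V → V → ℂ) : ∃ c : ℝ, 0 ≤ c ∧ ∀ Y : Matrix (V × V) (V × V) ℂ,
    Coc_N (f0 F Y) ≤ c * Coc_N Y ∧ Coc_N (f1 Y) ≤ c * Coc_N Y ∧ Coc_N (f2 F Y) ≤ c * Coc_N Y ∧
    Coc_N (f3 F Y) ≤ c * Coc_N Y ∧ Coc_N (f4 Y) ≤ c * Coc_N Y := by
  set a := Coc_N (L12 (Fm F)) with ha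
  set b := Coc_N (L23 (Fm F)) with hb
  set n : ℝ := (Fintype.card V : ℝ) with hn
  have ha0 : 0 ≤ a := Coc_N_nonneg _
  have hb0 : 0 ≤ b := Coc_N_nonneg _
  have hn0 : 0 ≤ n := Nat.cast_nonneg _
  refine ⟨n * (1 + a * b * b * a + a * a + b * b), by positivity, ?_⟩
  intro Y
  have hY : 0 ≤ Coc_N Y := Coc_N_nonneg _
  have hnY : 0 ≤ n * Coc_N Y := by positivity
  have g0 : Coc_N (f0 F Y) ≤ a * b * (n * Coc_N Y) * b * a := by
    unfold f0
    calc _ ≤ Coc_N (L12 (Fm F) * L23 (Fm F) * L12 Y * (L23 (Fm F))ᴴ) * Coc_N ((L12 (Fm F))ᴴ) :=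
          Coc_N_mul _ _
      _ ≤ (Coc_N (L12 (Fm F) * L23 (Fm F) * L12 Y) * Coc_N ((L23 (Fm F))ᴴ)) *
          Coc_N ((L12 (Fm F))ᴴ) :=
          mul_le_mul_of_nonneg_right (Coc_N_mul _ _) (Coc_N_nonneg _)
      _ ≤ ((Coc_N (L12 (Fm F) * L23 (Fm F)) * Coc_N (L12 Y)) * Coc_N ((L23 (Fm F))ᴴ)) *
          Coc_N ((L12 (Fm F))ᴴ) :=
          mul_le_mul_of_nonneg_right (mul_le_mul_of_nonneg_right (Coc_N_mul _ _)
            (Coc_N_nonneg _)) (Coc_N_nonneg _)
      _ ≤ (((a * b) * Coc_N (L12 Y)) * Coc_N ((L23 (Fm F))ᴴ)) * Coc_N ((L12 (Fm F))ᴴ) :=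
          mul_le_mul_of_nonneg_right (mul_le_mul_of_nonneg_right (mul_le_mul_of_nonneg_right
            (Coc_N_mul _ _) (Coc_N_nonneg _)) (Coc_N_nonneg _)) (Coc_N_nonneg _)
      _ = a * b * (n * Coc_N Y) * b * a := by rw [Coc_N_H, Coc_N_H, Coc_N_L12]
  have g2 : Coc_N (f2 F Y) ≤ a * (n * Coc_N Y) * a := by
    unfold f2
    calc _ ≤ Coc_N (L12 (Fm F) * L23 Y) * Coc_N ((L12 (Fm F))ᴴ) := Coc_N_mul _ _
      _ ≤ (Coc_N (L12 (Fm F)) * Coc_N (L23 Y)) * Coc_N ((L12 (Fm F))ᴴ) :=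
          mul_le_mul_of_nonneg_right (Coc_N_mul _ _) (Coc_N_nonneg _)
      _ = a * (n * Coc_N Y) * a := by rw [Coc_N_H, Coc_N_L23]
  have g3 : Coc_N (f3 F Y) ≤ b * (n * Coc_N Y) * b := by
    unfold f3
    calc _ ≤ Coc_N (L23 (Fm F) * L13 Y) * Coc_N ((L23 (Fm F))ᴴ) := Coc_N_mul _ _
      _ ≤ (Coc_N (L23 (Fm F)) * Coc_N (L13 Y)) * Coc_N ((L23 (Fm F))ᴴ) :=
          mul_le_mul_of_nonneg_right (Coc_N_mul _ _) (Coc_N_nonneg _)
      _ = b * (n * Coc_N Y) * b := by rw [Coc_N_H, Coc_N_L13]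
  have g1 : Coc_N (f1 Y) = n * Coc_N Y := by unfold f1; rw [Coc_N_L23]
  have g4 : Coc_N (f4 Y) = n * Coc_N Y := by unfold f4; rw [Coc_N_L12]
  have m1 : 0 ≤ (a * b * b * a) * (n * Coc_N Y) := by positivity
  have m2 : 0 ≤ (a * a) * (n * Coc_N Y) := by positivity
  have m3 : 0 ≤ (b * b) * (n * Coc_N Y) := by positivity
  refine ⟨?_, ?_, ?_, ?_, ?_⟩ <;> nlinarith

theorem Coc : Coc_stmt := by
  intro hX1 I V _ _ _ _ D F hF
  obtain ⟨c, hc0, hc⟩ := Coc_bound F
  set p12 : Matrix (V × V × V) (V × V × V) ℂ :=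
    Matrix.diagonal (fun x : V × V × V => if D.t x.1 = D.s1 x.2.1 then (1 : ℂ) else 0) with hp12
  set p23 : Matrix (V × V × V) (V × V × V) ℂ :=
    Matrix.diagonal (fun x : V × V × V => if D.t x.2.1 = D.s1 x.2.2 then (1 : ℂ) else 0) with hp23
  set p13 : Matrix (V × V × V) (V × V × V) ℂ :=
    Matrix.diagonal (fun x : V × V × V => if D.t x.1 = D.s1 x.2.2 then (1 : ℂ) else 0) with hp13
  set r12 : Matrix (V × V × V) (V × V × V) ℂ :=
    Matrix.diagonal (fun x : V × V × V => if D.t x.1 = D.s2 x.2.1 then (1 : ℂ) else 0) with hr12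
  set r23 : Matrix (V × V × V) (V × V × V) ℂ :=
    Matrix.diagonal (fun x : V × V × V => if D.t x.2.1 = D.s2 x.2.2 then (1 : ℂ) else 0) with hr23
  set Q := p23 * p12 with hQ
  set m : ℝ := (Fintype.card (V × V) : ℝ) with hm
  have hm0 : 0 ≤ m := Nat.cast_nonneg _
  refine ⟨(3 * c ^ 2 + c ^ 2 * Coc_N Q + c ^ 3 * (m ^ 2 * 2)) * m ^ 2, ?_⟩
  intro F' hF' x y hx1 hx2 hy1 hy2
  obtain ⟨hPL, hC3, hXF, hXX⟩ := hX1 I V D F F' hF hF'
  set X := Fm F' * (Fm F)ᴴ with hX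
  set η := X - D.PL with hη
  set A := L12 (Fm F) with hA
  set B := L23 (Fm F) with hB
  have hPLd := Coc_PL D
  -- supports
  have sA : ∀ x y : V × V × V, A x y ≠ 0 → x.2.2 = y.2.2 ∧ D.cp x.1 x.2.1 y.1 y.2.1 := by
    intro x y h
    simp only [hA, L12, Fm] at h
    by_cases h1 : x.2.2 = y.2.2
    · rw [if_pos h1] at h
      exact ⟨h1, (hF.conn.supp _ _ _ _ h).1⟩
    · rw [if_neg h1] at h; exact absurd rfl h
  have sB : ∀ x y : V × V × V, B x y ≠ 0 → x.1 = y.1 ∧ D.cp x.2.1 x.2.2 y.2.1 y.2.2 := by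
    intro x y h
    simp only [hB, L23, Fm] at h
    by_cases h1 : x.1 = y.1
    · rw [if_pos h1] at h
      exact ⟨h1, (hF.conn.supp _ _ _ _ h).1⟩
    · rw [if_neg h1] at h; exact absurd rfl h
  have sX12 : ∀ x y : V × V × V, L12 X x y ≠ 0 → x.2.2 = y.2.2 ∧
      X (x.1, x.2.1) (y.1, y.2.1) ≠ 0 := by
    intro x y h
    simp only [L12] at h
    by_cases h1 : x.2.2 = y.2.2
    · rw [if_pos h1] at h; exact ⟨h1, h⟩
    · rw [if_neg h1] at h; exact absurd rfl h
  have sX23 : ∀ x y : V × V × V, L23 X x y ≠ 0 → x.1 = y.1 ∧ X x.2 y.2 ≠ 0 := by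
    intro x y h
    simp only [L23] at h
    by_cases h1 : x.1 = y.1
    · rw [if_pos h1] at h; exact ⟨h1, h⟩
    · rw [if_neg h1] at h; exact absurd rfl h
  have sX13 : ∀ x y : V × V × V, L13 X x y ≠ 0 → x.2.1 = y.2.1 ∧
      X (x.1, x.2.2) (y.1, y.2.2) ≠ 0 := by
    intro x y h
    simp only [L13] at h
    by_cases h1 : x.2.1 = y.2.1
    · rw [if_pos h1] at h; exact ⟨h1, h⟩
    · rw [if_neg h1] at h; exact absurd rfl h
  -- relations
  have c1 : L23 X * r12 = r12 * L23 X := by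
    apply Coc_comm
    intro x y h
    obtain ⟨h1, h2⟩ := sX23 x y h
    obtain ⟨-, -, -, h3, -, -⟩ := hC3 _ _ h2
    rw [h1, h3]
  have c2 : B * p12 = r12 * B := by
    apply Coc_comm
    intro x y h
    obtain ⟨h1, -, -, -, h3, -, -⟩ := sB x y h
    rw [h1, h3]
  have c3 : L12 X * r23 = r23 * L12 X := by
    apply Coc_comm
    intro x y h
    obtain ⟨h1, h2⟩ := sX12 x y h
    obtain ⟨-, -, -, -, -, h3⟩ := hC3 _ _ h2
    rw [h1, h3]
  have c4 : L13 X * r23 = r23 * L13 X := by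
    apply Coc_comm
    intro x y h
    obtain ⟨h1, h2⟩ := sX13 x y h
    obtain ⟨-, -, -, -, h3, -⟩ := hC3 _ _ h2
    rw [h1, h3]
  have c5 : A * p23 = p23 * A := by
    apply Coc_comm
    intro x y h
    obtain ⟨h1, -, -, -, -, -, h3⟩ := sA x y h
    rw [h1, h3]
  have c6 : B * p13 = p12 * B := by
    apply Coc_comm
    intro x y h
    obtain ⟨h1, -, -, h3, -, -, -⟩ := sB x y h
    rw [h1, h3]
  have k1 : L12 X * p12 = L12 X := by
    apply Coc_right
    intro x y h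
    obtain ⟨h1, h2⟩ := sX12 x y h
    obtain ⟨-, h3, -, -, -, -⟩ := hC3 _ _ h2
    exact if_pos h3
  have k2 : A * r12 = A := by
    apply Coc_right
    intro x y h
    obtain ⟨-, -, h3, -, -, -, -⟩ := sA x y h
    exact if_pos h3
  have k3 : B * r23 = B := by
    apply Coc_right
    intro x y h
    obtain ⟨-, -, h3, -, -, -, -⟩ := sB x y h
    exact if_pos h3
  have AAH : A * Aᴴ = p12 := by
    rw [hA, Coc_L12_H, ← Coc_L12_mul, hPL, hPLd, Coc_L12_diag]
  have BBH : B * Bᴴ = p23 := by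
    rw [hB, Coc_L23_H, ← Coc_L23_mul, hPL, hPLd, Coc_L23_diag]
  have AHA : Aᴴ * A = r12 := by
    rw [hA, Coc_L12_H, ← Coc_L12_mul, Coc_FHF D F hF, Coc_L12_diag]
  have BHB : Bᴴ * B = r23 := by
    rw [hB, Coc_L23_H, ← Coc_L23_mul, Coc_FHF D F hF, Coc_L23_diag]
  have pen := Coc_pent F hF.pent
  have pen' := Coc_pent F' hF'.pent
  have hA' : L12 (Fm F') = L12 X * A := by rw [← hXF, Coc_L12_mul]
  have hB' : L23 (Fm F') = L23 X * B := by rw [← hXF, Coc_L23_mul]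
  have hK' : Coc_K F' = L13 X * Coc_K F := (Coc_K_mul F F' X hXF).symm
  have key := Coc_alg A B Aᴴ Bᴴ (L12 X) (L23 X) (L13 X) (Coc_K F) (Coc_K F') (L12 (Fm F'))
    (L23 (Fm F')) p12 p23 r12 r23 hA' hB' hK' pen pen' c1 c2 c3 c4 c5 k1 k2 k3 AAH BBH AHA BHB
  obtain ⟨pr2, pr0, pr3⟩ := Coc_proj A B Aᴴ Bᴴ p12 p23 p13 r12 c2 c5 c6 k2 AAH BBH
  -- decomposition
  have hXe : X = D.PL + η := by rw [hη]; abel
  have d12 : L12 D.PL = p12 := by rw [hPLd, Coc_L12_diag]
  have d23 : L23 D.PL = p23 := by rw [hPLd, Coc_L23_diag]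
  have d13 : L13 D.PL = p13 := by rw [hPLd, Coc_L13_diag]
  have hcomm : p12 * p23 = p23 * p12 := by
    rw [hp12, hp23, Matrix.diagonal_mul_diagonal, Matrix.diagonal_mul_diagonal]
    congr 1
    funext z
    ring
  have hidem12 : p12 * p12 = p12 := by
    rw [hp12, Matrix.diagonal_mul_diagonal]
    congr 1
    funext z
    split_ifs <;> simp
  have hidem23 : p23 * p23 = p23 := by
    rw [hp23, Matrix.diagonal_mul_diagonal]
    congr 1
    funext z
    split_ifs <;> simp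
  have hQ4 : Q * p12 = Q := by rw [hQ, Matrix.mul_assoc, hidem12]
  have hQ1 : Q * p23 = Q := by
    rw [hQ, Matrix.mul_assoc, hcomm, ← Matrix.mul_assoc, hidem23]
  have hQQ : Q * Q = Q := by
    calc Q * Q = Q * (p23 * p12) := rfl
      _ = (Q * p23) * p12 := (Matrix.mul_assoc _ _ _).symm
      _ = Q := by rw [hQ1, hQ4]
  have e4 : L12 X = p12 + f4 η := by
    conv_lhs => rw [hXe]
    rw [Coc_L12_add, d12]; rfl
  have e1 : L23 X = p23 + f1 η := by
    conv_lhs => rw [hXe]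
    rw [Coc_L23_add, d23]; rfl
  have e13 : L13 X = p13 + L13 η := by
    conv_lhs => rw [hXe]
    rw [Coc_L13_add, d13]
  have e2 : A * L23 X * Aᴴ = Q + f2 F η := by
    rw [e1, Matrix.mul_add, Matrix.add_mul, pr2]; rfl
  have e0 : A * B * L12 X * Bᴴ * Aᴴ = Q + f0 F η := by
    rw [e4, Matrix.mul_add, Matrix.add_mul, Matrix.add_mul, pr0]; rfl
  have e3 : B * L13 X * Bᴴ = Q + f3 F η := by
    rw [e13, Matrix.mul_add, Matrix.add_mul, pr3, hcomm]; rfl
  rw [e2, e0, e3, e4, e1] at key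
  have fin := Coc_ring Q p12 p23 (f0 F η) (f1 η) (f2 F η) (f3 F η) (f4 η) hQQ hQ4 hQ1 key
  have hdd : dd F η = f0 F η - f1 η + f2 F η - f3 F η + f4 η := rfl
  rw [← hdd] at fin
  have hQd : Q = Matrix.diagonal (fun z : V × V × V =>
      (if D.t z.2.1 = D.s1 z.2.2 then (1 : ℂ) else 0) *
        (if D.t z.1 = D.s1 z.2.1 then (1 : ℂ) else 0)) := by
    rw [hQ, hp12, hp23, Matrix.diagonal_mul_diagonal]
  have hent : ∀ M : Matrix (V × V × V) (V × V × V) ℂ, (Q * M * Q) x y = M x y := by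
    intro M
    rw [hQd, Matrix.mul_diagonal, Matrix.diagonal_mul, if_pos hx1, if_pos hx2, if_pos hy1,
      if_pos hy2]
    ring
  have hxy : dd F η x y = (f1 η * f3 F η - f2 F η * f0 F η - f4 η * Q * f0 F η -
      f4 η * f2 F η - f4 η * f2 F η * f0 F η) x y := by
    rw [← hent (dd F η), fin, hent]
  rw [hxy]
  obtain ⟨b0, b1, b2, b3, b4⟩ := hc η
  set s := Coc_N η with hs
  have hs0 : 0 ≤ s := Coc_N_nonneg _
  -- entries of X
  have hXent : ∀ z w, ‖X z w‖ ≤ 1 := by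
    intro z w
    have h1 : (X * Xᴴ) z z = D.PL z z := by rw [hXX]
    rw [Matrix.mul_apply] at h1
    have h2 : ∑ v, X z v * Xᴴ v z = ((∑ v, ‖X z v‖ ^ 2 : ℝ) : ℂ) := by
      push_cast
      apply Finset.sum_congr rfl
      intro v _
      rw [Matrix.conjTranspose_apply]
      have := Complex.mul_conj (X z v)
      rw [Complex.normSq_eq_norm_sq] at this
      push_cast at this
      exact this
    rw [h2] at h1
    have h3 : (∑ v, ‖X z v‖ ^ 2 : ℝ) ≤ 1 := by
      rw [hPLd, Matrix.diagonal_apply_eq] at h1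
      by_cases h4 : D.t z.1 = D.s1 z.2
      · rw [if_pos h4] at h1
        have : (∑ v, ‖X z v‖ ^ 2 : ℝ) = 1 := by exact_mod_cast h1
        exact this.le
      · rw [if_neg h4] at h1
        have : (∑ v, ‖X z v‖ ^ 2 : ℝ) = 0 := by exact_mod_cast h1
        rw [this]; norm_num
    have h4 : ‖X z w‖ ^ 2 ≤ 1 :=
      (Finset.single_le_sum (f := fun v => ‖X z v‖ ^ 2) (fun _ _ => sq_nonneg _)
        (Finset.mem_univ w)).trans h3
    nlinarith [norm_nonneg (X z w)]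
  have hsS : s ≤ m ^ 2 * 2 := by
    apply Coc_N_le
    intro z w
    rw [hη, Matrix.sub_apply]
    have h5 : ‖D.PL z w‖ ≤ 1 := by
      simp only [FD.PL]
      split_ifs <;> simp
    calc ‖X z w - D.PL z w‖ ≤ ‖X z w‖ + ‖D.PL z w‖ := norm_sub_le _ _
      _ ≤ 2 := by linarith [hXent z w]
  have hsq : s ^ 2 ≤ m ^ 2 * ∑ z, ∑ w, ‖η z w‖ ^ 2 := Coc_N_sq η
  have hcs : 0 ≤ c * s := by positivity
  have nb : ∀ (P R : Matrix (V × V × V) (V × V × V) ℂ) (a b : ℝ), Coc_N P ≤ a → Coc_N R ≤ b →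
      0 ≤ a → Coc_N (P * R) ≤ a * b := by
    intro P R a b h1 h2 h3
    exact (Coc_N_mul P R).trans (mul_le_mul h1 h2 (Coc_N_nonneg _) h3)
  have t1 : ‖(f1 η * f3 F η) x y‖ ≤ (c * s) * (c * s) :=
    (Coc_N_entry _ x y).trans (nb _ _ _ _ b1 b3 hcs)
  have t2 : ‖(f2 F η * f0 F η) x y‖ ≤ (c * s) * (c * s) :=
    (Coc_N_entry _ x y).trans (nb _ _ _ _ b2 b0 hcs)
  have hNQ : 0 ≤ Coc_N Q := Coc_N_nonneg _
  have t3 : ‖(f4 η * Q * f0 F η) x y‖ ≤ ((c * s) * Coc_N Q) * (c * s) :=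
    (Coc_N_entry _ x y).trans (nb _ _ _ _ (nb _ _ _ _ b4 le_rfl hcs) b0 (by positivity))
  have t4 : ‖(f4 η * f2 F η) x y‖ ≤ (c * s) * (c * s) :=
    (Coc_N_entry _ x y).trans (nb _ _ _ _ b4 b2 hcs)
  have t5 : ‖(f4 η * f2 F η * f0 F η) x y‖ ≤ ((c * s) * (c * s)) * (c * s) :=
    (Coc_N_entry _ x y).trans (nb _ _ _ _ (nb _ _ _ _ b4 b2 hcs) b0 (by positivity))
  have t6 : ((c * s) * (c * s)) * (c * s) ≤ c ^ 3 * (m ^ 2 * 2) * s ^ 2 := by
    have : c ^ 3 * s ^ 2 * s ≤ c ^ 3 * s ^ 2 * (m ^ 2 * 2) :=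
      mul_le_mul_of_nonneg_left hsS (by positivity)
    nlinarith
  have total : ‖(f1 η * f3 F η - f2 F η * f0 F η - f4 η * Q * f0 F η -
      f4 η * f2 F η - f4 η * f2 F η * f0 F η) x y‖ ≤
      (3 * c ^ 2 + c ^ 2 * Coc_N Q + c ^ 3 * (m ^ 2 * 2)) * s ^ 2 := by
    rw [Matrix.sub_apply, Matrix.sub_apply, Matrix.sub_apply, Matrix.sub_apply]
    refine (norm_sub_le _ _).trans ?_
    refine (add_le_add_left ((norm_sub_le _ _).trans (add_le_add_left ((norm_sub_le _ _).trans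
      (add_le_add_left (norm_sub_le _ _) _)) _)) _).trans ?_
    nlinarith
  refine total.trans ?_
  have hK0 : 0 ≤ 3 * c ^ 2 + c ^ 2 * Coc_N Q + c ^ 3 * (m ^ 2 * 2) := by positivity
  calc (3 * c ^ 2 + c ^ 2 * Coc_N Q + c ^ 3 * (m ^ 2 * 2)) * s ^ 2
      ≤ (3 * c ^ 2 + c ^ 2 * Coc_N Q + c ^ 3 * (m ^ 2 * 2)) *
        (m ^ 2 * ∑ z, ∑ w, ‖η z w‖ ^ 2) := mul_le_mul_of_nonneg_left hsq hK0
    _ = (3 * c ^ 2 + c ^ 2 * Coc_N Q + c ^ 3 * (m ^ 2 * 2)) * m ^ 2 *
        ∑ z, ∑ w, ‖η z w‖ ^ 2 := by ring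

end

end Pool.Agent.helper93.TV
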