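import Pool.Agent.helper93.TV.Spec3

/-! Row tv:DB (doubling), for helper93's TV project. -/

namespace Pool.Agent.helper93.TV

open BigOperators Finset

set_option linter.unusedSectionVars false

section

variable {I V : Type} [Fintype I] [DecidableEq I] [Fintype V] [DecidableEq V]

theorem DB_sum (D : FD I V) (d : I → ℝ) (a b : I) :
    ∑ v ∈ univ.filter (fun v => D.s1 v = a ∧ D.s2 v = b), d (D.t v) =
      ∑ c, (D.mlt a b c : ℝ) * d c := by
  classical
  rw [← Finset.sum_fiberwise (univ.filter (fun v => D.s1 v = a ∧ D.s2 v = b)) D.t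
    (fun v => d (D.t v))]
  refine Finset.sum_congr rfl fun c _ => ?_
  rw [Finset.filter_filter]
  rw [Finset.sum_congr rfl (g := fun _ => d c)]
  · rw [Finset.sum_const, nsmul_eq_mul, FD.mlt]
    congr 2
    simp only [and_assoc]
  · intro v hv
    simp only [Finset.mem_filter, Finset.mem_univ, true_and] at hv
    rw [hv.2]

theorem DB_exists (D : FD I V) {a b c : I} (h : D.mlt a b c ≠ 0) :
    ∃ v, D.s1 v = a ∧ D.s2 v = b ∧ D.t v = c := by
  unfold FD.mlt at h
  obtain ⟨v, hv⟩ := Finset.card_ne_zero.mp h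
  simp only [Finset.mem_filter, Finset.mem_univ, true_and] at hv
  exact ⟨v, hv⟩

end

theorem DB : DB_stmt := by
  intro hKD I V _ _ _ _ D d hR hd S S' hSS' hdu hS hS' hb
  classical
  obtain ⟨b, hbS', hbS⟩ := hb
  have hdd : ∀ x, d (D.du x) = d x := (hKD I V D d hR hd).1
  have hpos := hd.1
  have hsum : ∀ a b, ∑ c, (D.mlt a b c : ℝ) * d c = d a * d b := fun a b => by
    rw [← DB_sum]; exact hd.2 a b
  set T : Finset I := univ.filter (fun c => ∃ s ∈ S, D.mlt s b c ≠ 0) with hT
  have hTS' : T ⊆ S' := by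
    intro c hc
    obtain ⟨s, hs, hm⟩ := (Finset.mem_filter.mp hc).2
    obtain ⟨v, h1, h2, h3⟩ := DB_exists D hm
    rw [← h3]
    exact hS' v (by rw [h1]; exact hSS' hs) (by rw [h2]; exact hbS')
  have hdisj : Disjoint S T := by
    rw [Finset.disjoint_left]
    intro c hcS hcT
    obtain ⟨s, hs, hm⟩ := (Finset.mem_filter.mp hcT).2
    rw [hR.frl] at hm
    obtain ⟨v, h1, h2, h3⟩ := DB_exists D hm
    exact hbS (by rw [← h3]; exact hS v (by rw [h1]; exact hdu s hs) (by rw [h2]; exact hcS))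
  have hkey : (∑ s ∈ S, d s ^ 2) * d b ≤ (∑ c ∈ T, d c ^ 2) * d b := by
    calc (∑ s ∈ S, d s ^ 2) * d b
        = ∑ s ∈ S, d s * ∑ c, (D.mlt s b c : ℝ) * d c := by
          rw [Finset.sum_mul]
          refine Finset.sum_congr rfl fun s _ => ?_
          rw [hsum]; ring
      _ = ∑ c, (∑ s ∈ S, (D.mlt s b c : ℝ) * d s) * d c := by
          simp only [Finset.mul_sum, Finset.sum_mul]
          rw [Finset.sum_comm]
          refine Finset.sum_congr rfl fun c _ => Finset.sum_congr rfl fun s _ => by ring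
      _ = ∑ c ∈ T, (∑ s ∈ S, (D.mlt s b c : ℝ) * d s) * d c := by
          symm
          refine Finset.sum_subset (Finset.subset_univ T) fun c _ hcT => ?_
          have : ∑ s ∈ S, (D.mlt s b c : ℝ) * d s = 0 := by
            refine Finset.sum_eq_zero fun s hs => ?_
            have : D.mlt s b c = 0 := by
              by_contra hne
              exact hcT (Finset.mem_filter.mpr ⟨Finset.mem_univ _, s, hs, hne⟩)
            rw [this]; simp
          rw [this, zero_mul]
      _ ≤ ∑ c ∈ T, (d c * d b) * d c := by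
          refine Finset.sum_le_sum fun c _ => ?_
          refine mul_le_mul_of_nonneg_right ?_ (hpos c).le
          calc ∑ s ∈ S, (D.mlt s b c : ℝ) * d s
              ≤ ∑ s, (D.mlt s b c : ℝ) * d s :=
                Finset.sum_le_sum_of_subset_of_nonneg (Finset.subset_univ S)
                  fun s _ _ => mul_nonneg (Nat.cast_nonneg _) (hpos s).le
            _ = ∑ s, (D.mlt c (D.du b) s : ℝ) * d s :=
                Finset.sum_congr rfl fun s _ => by rw [hR.frr s b c]
            _ = d c * d b := by rw [hsum, hdd]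
      _ = (∑ c ∈ T, d c ^ 2) * d b := by
          rw [Finset.sum_mul]
          exact Finset.sum_congr rfl fun c _ => by ring
  have hkey2 : ∑ s ∈ S, d s ^ 2 ≤ ∑ c ∈ T, d c ^ 2 := le_of_mul_le_mul_right hkey (hpos b)
  calc 2 * ∑ s ∈ S, d s ^ 2 ≤ ∑ s ∈ S, d s ^ 2 + ∑ c ∈ T, d c ^ 2 := by linarith
    _ = ∑ c ∈ S ∪ T, d c ^ 2 := (Finset.sum_union hdisj).symm
    _ ≤ ∑ s ∈ S', d s ^ 2 :=
      Finset.sum_le_sum_of_subset_of_nonneg (Finset.union_subset hSS' hTS')
        fun s _ _ => sq_nonneg _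

end Pool.Agent.helper93.TV
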