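import Pool.Agent.helper93.TV.Spec1

/-!
Row tv:U1 (MP_29f1cd_al): the F-symbols with first object the unit are trivial.
-/

set_option autoImplicit false

namespace Pool.Agent.helper93.TV

open BigOperators Finset Matrix

theorem U1_rho_o {I V : Type} (D : FD I V) : D.rho D.o = D.lam D.o := by
  have h := D.lam_unique (D.rho D.o) (D.s1_rho D.o)
  rwa [D.s2_rho] at h

theorem U1_one {I V : Type} [Fintype I] [DecidableEq I] [Fintype V] [DecidableEq V]
    (D : FD I V) (F : V → V → V → V → ℂ) (h : D.UFS F) (c : I) :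
    F (D.lam D.o) (D.lam c) (D.lam c) (D.lam c) = 1 := by
  have h1 := h.tri (D.lam c) (D.lam c)
  rw [D.s1_lam, D.s2_lam, if_pos rfl, U1_rho_o] at h1
  exact h1

/-- A vertex with first object `o` and target `c` is `lam c`. -/
theorem U1_eq_lam {I V : Type} (D : FD I V) (v : V) (c : I) (h1 : D.s1 v = D.o) (h2 : D.t v = c) :
    v = D.lam c := by
  have h := D.lam_unique v h1
  have h3 : D.t v = D.s2 v := by
    conv_lhs => rw [h]
    exact D.t_lam _
  rw [h, ← h3, h2]

theorem U1_eq_lam2 {I V : Type} (D : FD I V) (v : V) (c : I) (h1 : D.s1 v = D.o) (h2 : D.s2 v = c) :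
    v = D.lam c := by
  rw [D.lam_unique v h1, h2]

/-- The matrix `L`. -/
def U1_L {I V : Type} (D : FD I V) (F : V → V → V → V → ℂ) : Matrix V V ℂ :=
  fun γ β => F (D.lam (D.s1 γ)) γ β (D.lam (D.t γ))

theorem U1_type {I V : Type} [Fintype I] [DecidableEq I] [Fintype V] [DecidableEq V]
    (D : FD I V) (F : V → V → V → V → ℂ) (h : D.UFS F) (γ β : V) (hn : U1_L D F γ β ≠ 0) :
    D.s1 β = D.s1 γ ∧ D.s2 β = D.s2 γ ∧ D.t β = D.t γ := by
  obtain ⟨⟨c1, c2, c3, c4, c5, c6⟩, -, -⟩ := h.uf.conn.supp _ _ _ _ hn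
  rw [D.s2_lam] at c2 c4
  exact ⟨c4.symm, c5.symm, c2⟩

theorem U1_sq {I V : Type} [Fintype I] [DecidableEq I] [Fintype V] [DecidableEq V]
    (D : FD I V) (F : V → V → V → V → ℂ) (h : D.UFS F) : U1_L D F * U1_L D F = U1_L D F := by
  have hs := h.uf.conn.supp
  ext ε β
  rw [Matrix.mul_apply]
  have hp := h.uf.pent (D.lam D.o) (D.lam (D.s1 ε)) ε β (D.lam (D.t ε)) (D.lam (D.t ε))
  have hL : ∑ ν, F (D.lam (D.s1 ε)) ε β ν * F (D.lam D.o) ν (D.lam (D.t ε)) (D.lam (D.t ε)) =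
      U1_L D F ε β := by
    rw [Finset.sum_eq_single (D.lam (D.t ε))]
    · rw [U1_one D F h, mul_one]; rfl
    · intro ν _ hν
      by_contra hne
      have h2 := right_ne_zero_of_mul hne
      obtain ⟨⟨c1, c2, c3, c4, c5, c6⟩, -, -⟩ := hs _ _ _ _ h2
      rw [D.t_lam] at c1
      rw [D.s2_lam] at c5
      exact hν (U1_eq_lam2 D ν _ c1.symm c5)
    · intro hh; exact absurd (Finset.mem_univ _) hh
  have hR : ∑ μ, ∑ ρ, ∑ σ, F (D.lam D.o) (D.lam (D.s1 ε)) μ ρ * F ρ ε σ (D.lam (D.t ε)) *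
      F μ σ β (D.lam (D.t ε)) = ∑ σ, U1_L D F ε σ * U1_L D F σ β := by
    rw [Finset.sum_eq_single (D.lam (D.s1 ε))]
    · rw [Finset.sum_eq_single (D.lam (D.s1 ε))]
      · apply Finset.sum_congr rfl
        intro σ _
        rw [U1_one D F h, one_mul]
        by_cases h0 : U1_L D F ε σ = 0
        · rw [h0, zero_mul]
          have h0' : F (D.lam (D.s1 ε)) ε σ (D.lam (D.t ε)) = 0 := h0
          rw [h0', zero_mul]
        · obtain ⟨t1, t2, t3⟩ := U1_type D F h ε σ h0
          unfold U1_L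
          rw [t1, t3]
      · intro ρ _ hρ
        apply Finset.sum_eq_zero
        intro σ _
        by_contra hne
        have h2 := left_ne_zero_of_mul (left_ne_zero_of_mul hne)
        obtain ⟨⟨c1, c2, c3, c4, c5, c6⟩, -, -⟩ := hs _ _ _ _ h2
        rw [D.s1_lam] at c3
        rw [D.t_lam] at c6
        exact hρ (U1_eq_lam D ρ _ c3.symm c6.symm)
      · intro hh; exact absurd (Finset.mem_univ _) hh
    · intro μ _ hμ
      apply Finset.sum_eq_zero
      intro ρ _
      apply Finset.sum_eq_zero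
      intro σ _
      by_contra hne
      have h2 := left_ne_zero_of_mul (left_ne_zero_of_mul hne)
      obtain ⟨⟨c1, c2, c3, c4, c5, c6⟩, -, -⟩ := hs _ _ _ _ h2
      rw [D.s2_lam] at c4 c5
      exact hμ (U1_eq_lam2 D μ _ c4.symm c5.symm)
    · intro hh; exact absurd (Finset.mem_univ _) hh
  rw [← hR, ← hp, hL]

theorem U1_unit {I V : Type} [Fintype I] [DecidableEq I] [Fintype V] [DecidableEq V]
    (D : FD I V) (F : V → V → V → V → ℂ) (h : D.UFS F) : U1_L D F * (U1_L D F)ᴴ = 1 := by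
  have hs := h.uf.conn.supp
  ext γ γ₁
  rw [Matrix.mul_apply, Matrix.one_apply]
  have hr := h.uf.conn.row (D.lam (D.s1 γ)) γ (D.lam (D.s1 γ₁)) γ₁ (D.t_lam _)
    (Finset.mem_univ _) (Finset.mem_univ _)
  have e1 : ∑ e', ∑ l', F (D.lam (D.s1 γ)) γ e' l' * star (F (D.lam (D.s1 γ₁)) γ₁ e' l') =
      ∑ e', U1_L D F γ e' * (U1_L D F)ᴴ e' γ₁ := by
    apply Finset.sum_congr rfl
    intro e' _
    rw [Finset.sum_eq_single (D.lam (D.t γ)), Matrix.conjTranspose_apply]
    · by_cases h0 : U1_L D F γ e' = 0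
      · rw [h0, zero_mul]
        have h0' : F (D.lam (D.s1 γ)) γ e' (D.lam (D.t γ)) = 0 := h0
        rw [h0', zero_mul]
      · obtain ⟨t1, t2, t3⟩ := U1_type D F h γ e' h0
        by_cases ht : D.t γ = D.t γ₁
        · unfold U1_L
          rw [ht]
        · have a1 : U1_L D F γ₁ e' = 0 := by
            by_contra hne
            obtain ⟨u1, u2, u3⟩ := U1_type D F h γ₁ e' hne
            exact ht (t3.symm.trans u3)
          have a2 : F (D.lam (D.s1 γ₁)) γ₁ e' (D.lam (D.t γ)) = 0 := by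
            by_contra hne
            obtain ⟨⟨c1, c2, c3, c4, c5, c6⟩, -, -⟩ := hs _ _ _ _ hne
            rw [D.t_lam] at c6
            exact ht c6.symm
          rw [a1, a2, star_zero, mul_zero, mul_zero]
    · intro l' _ hl'
      by_contra hne
      have h2 := left_ne_zero_of_mul hne
      obtain ⟨⟨c1, c2, c3, c4, c5, c6⟩, -, -⟩ := hs _ _ _ _ h2
      rw [D.s1_lam] at c3
      exact hl' (U1_eq_lam D l' _ c3.symm c6.symm)
    · intro hh; exact absurd (Finset.mem_univ _) hh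
  rw [← e1, hr]
  by_cases hg : γ = γ₁
  · subst hg; simp
  · rw [if_neg (fun hh => hg hh.2), if_neg hg]

theorem U1 : U1_stmt := by
  intro I V _ _ _ _ D F h γ β
  have h1 := U1_sq D F h
  have h2 := U1_unit D F h
  have h3 : U1_L D F = 1 := by
    calc U1_L D F = U1_L D F * (U1_L D F * (U1_L D F)ᴴ) := by rw [h2, Matrix.mul_one]
      _ = (U1_L D F * U1_L D F) * (U1_L D F)ᴴ := by rw [Matrix.mul_assoc]
      _ = U1_L D F * (U1_L D F)ᴴ := by rw [h1]
      _ = 1 := h2
  have h4 : U1_L D F γ β = (1 : Matrix V V ℂ) γ β := by rw [h3]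
  rw [Matrix.one_apply] at h4
  exact h4

end Pool.Agent.helper93.TV
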